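import Mathlib
import Pool.Agent.Y55.GCR.Tail
import Pool.Agent.Results.MP_b5e119_nt.TwoThirds

/-!
# The gcd recursion for Goldbach pairs: power saving, at every time of the descent

At every time `s` of the descent the remaining time `g_N - s` is at most two thirds of the current
value `a_s`, up to a power saving and to the least prime factor of `(g_N + 1)(2N - g_N - 1)`.
-/

set_option autoImplicit false

namespace Pool.Agent.Results.MP_b5e119_nt.EveryTimePowerSaving

open Finset Pool.Agent.H399R2 Pool.Agent.TH999.GCR Pool.Agent.Y55.GCR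
open Pool.Agent.Results.MP_b5e119_nt.TwoThirds

/-- every final part of the descent is good -/
lemma good_at (N s f : ℕ) (x : ℕ → ℕ) (hseg : Seg x (V N) s f) :
    ∃ (per : ℕ → ℕ) (R : ℕ → Finset ℕ), Good x (V N) s f 2 2 per R := by
  classical
  set c : ℕ := (2 + 1) * s + 2 * x s with hc
  set z : ℕ → ℤ := fun i => if (s + i) % 2 = 1 then 6 * (N : ℤ) else 0 with hz
  refine ⟨fun p => if p = 2 then 2 else 2 * p,
    fun p => if p = 2 then ∅ else (range 2).biUnion
      (fun i => (range p).filter (fun j : ℕ => (p : ℤ) ∣ 2 * (j : ℤ) + i + c - z i)),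
      hseg, ?_, ?_, ?_, ?_, ?_⟩
  · intro p hp
    have := hp.pos
    split_ifs <;> omega
  · intro p hp
    split_ifs with h
    · rw [h]
    · exact Dvd.intro_left _ rfl
  · intro p hp n hn
    have hp2 := hp.two_le
    split_ifs with h3
    · subst h3
      rcases Nat.mod_two_eq_zero_or_one n with h2 | h2
      · rw [V_even N h2, V_even N (show (n + 2) % 2 = 0 by omega)]
        omega
      · rw [V_odd N h2, V_odd N (show (n + 2) % 2 = 1 by omega)]
        omega
    · rcases Nat.mod_two_eq_zero_or_one n with h2 | h2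
      · rw [V_even N h2, V_even N (show (n + 2 * p) % 2 = 0 by omega)]
        have e1 : ((n + 2 * p : ℕ) : ℤ) = (n : ℤ) + (p : ℤ) * 2 := by push_cast; ring
        rw [e1]
        exact (Int.dvd_add_left (Dvd.intro _ rfl)).mp
      · rw [V_odd N h2, V_odd N (show (n + 2 * p) % 2 = 1 by omega)]
        have e1 : 2 * (N : ℤ) - ((n + 2 * p : ℕ) : ℤ) = (2 * (N : ℤ) - n) + (p : ℤ) * (-2) := by
          push_cast; ring
        rw [e1]
        exact (Int.dvd_add_left (Dvd.intro _ rfl)).mp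
  · intro p hp
    have hp2 := hp.two_le
    by_cases h3 : p = 2
    · left
      rw [if_pos h3, h3]
    · right
      rw [if_neg h3, if_neg h3]
      refine ⟨le_rfl, ?_⟩
      intro n hn hV j i hi hmod hmod2
      rw [mem_biUnion]
      refine ⟨i, mem_range.mpr hi, ?_⟩
      rw [mem_filter, mem_range]
      refine ⟨Nat.mod_lt _ hp.pos, ?_⟩
      have h5 : (p : ℤ) ∣ ((((2 + 1) * s + 2 * x s + 2 * j + i : ℕ)) : ℤ) -
          (((2 + 1) * n : ℕ) : ℤ) := (Nat.modEq_iff_dvd).mp hmod
      have hc' : ((((2 + 1) * s + 2 * x s + 2 * j + i : ℕ)) : ℤ) = c + 2 * j + i := by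
        rw [hc]; push_cast; ring
      rw [hc'] at h5
      have h6 : (p : ℤ) ∣ 3 * (n : ℤ) - z i := by
        have hmod2' : n % 2 = (s + i) % 2 := hmod2
        rcases Nat.mod_two_eq_zero_or_one n with h7 | h7
        · rw [V_even N h7] at hV
          have e0 : z i = 0 := by
            simp only [hz]
            rw [if_neg (by omega)]
          have e1 : 3 * (n : ℤ) - z i = (n : ℤ) * 3 := by
            rw [e0]; ring
          rw [e1]
          exact Dvd.dvd.mul_right hV _
        · rw [V_odd N h7] at hV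
          have e0 : z i = 6 * (N : ℤ) := by
            simp only [hz]
            rw [if_pos (by omega)]
          have e1 : 3 * (n : ℤ) - z i = (2 * (N : ℤ) - n) * (-3) := by
            rw [e0]; ring
          rw [e1]
          exact Dvd.dvd.mul_right hV _
      have h8 : (p : ℤ) ∣ (j : ℤ) - ((j % p : ℕ) : ℤ) := by
        have := (Nat.modEq_iff_dvd).mp (Nat.mod_modEq j p)
        exact this
      have e2 : 2 * ((j % p : ℕ) : ℤ) + i + c - z i =
          ((c + 2 * j + i : ℤ) - (((2 + 1) * n : ℕ) : ℤ)) + (3 * (n : ℤ) - z i) +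
            ((j : ℤ) - ((j % p : ℕ) : ℤ)) * (-2) := by
        push_cast; ring
      rw [e2]
      exact dvd_add (dvd_add h5 h6) (Dvd.dvd.mul_right h8 _)
  · intro p hp
    have hp2 := hp.two_le
    by_cases h3 : p = 2
    · rw [if_pos h3]
      simp
    · rw [if_neg h3]
      have h4 : ww 2 p = 2 := by
        unfold ww
        rw [if_neg (by omega)]
      rw [h4]
      have h5 := Finset.card_biUnion_le_card_mul (range 2)
        (fun i => (range p).filter (fun j : ℕ => (p : ℤ) ∣ 2 * (j : ℤ) + i + c - z i)) 1 (by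
          intro i _
          rw [Finset.card_le_one]
          intro j hj j' hj'
          rw [mem_filter, mem_range] at hj hj'
          have h1 : (p : ℤ) ∣ 2 * ((j : ℤ) - j') := by
            have h2 := dvd_sub hj.2 hj'.2
            have e1 : 2 * (j : ℤ) + i + c - z i - (2 * (j' : ℤ) + i + c - z i) =
                2 * ((j : ℤ) - j') := by ring
            rwa [e1] at h2
          have hcop : IsCoprime (p : ℤ) 2 := by
            have : Nat.Coprime p 2 := by
              rw [Nat.coprime_primes hp Nat.prime_two]; exact h3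
            exact_mod_cast (Nat.isCoprime_iff_coprime.mpr this)
          have h6 := hcop.dvd_of_dvd_mul_left h1
          have h7 : j' ≡ j [MOD p] := (Nat.modEq_iff_dvd).mpr h6
          have h8 : j' % p = j % p := h7
          rw [Nat.mod_eq_of_lt hj.1, Nat.mod_eq_of_lt hj'.1] at h8
          exact h8.symm)
      rw [card_range] at h5
      exact h5

/-- There are absolute constants `δ > 0` and `C` such that for all `N ≥ 3`, the recursion `a` of the
problem and `g = g_N`: (1) at every time `s` of the descent (`1 ≤ s ≤ g`) every prime factor `p` of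
`g+1` or `2N-g-1` satisfies `3 (g - s) ≤ 2 a(s) + 2 p + C a(s)^(1-δ)`; (2) if
`3 (g - s) > 2 a(s) + 2 √(2N-g-1) + C a(s)^(1-δ)` at some time `s` of the descent, then `g+1` and
`2N-g-1` are prime; (3) either `g+1` and `2N-g-1` are both prime or
`g ≤ (2/3) N + C N^(1-δ)`. -/
theorem result :
    ∃ δ C : ℝ, 0 < δ ∧ 0 < C ∧ ∀ N : ℕ, 3 ≤ N → ∀ a : ℕ → ℤ, a 1 = (N : ℤ) - 2 →
      (∀ n : ℕ, 2 ≤ n → a n = a (n - 1) -
        ((Int.gcd (a (n - 1)) ((N : ℤ) - (-1) ^ n * ((N : ℤ) - n)) : ℕ) : ℤ)) →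
      ∀ g : ℕ, IsLeast {n : ℕ | 2 ≤ n ∧ a n = 0} g →
        (∀ s : ℕ, 1 ≤ s → s ≤ g → ∀ p : ℕ, p.Prime → (p ∣ g + 1 ∨ p ∣ 2 * N - g - 1) →
          3 * ((g : ℝ) - s) ≤ 2 * (a s : ℝ) + 2 * p + C * (a s : ℝ) ^ (1 - δ)) ∧
        (∀ s : ℕ, 1 ≤ s → s ≤ g →
          2 * (a s : ℝ) + 2 * √(2 * (N : ℝ) - g - 1) + C * (a s : ℝ) ^ (1 - δ) <
            3 * ((g : ℝ) - s) →
          Nat.Prime (g + 1) ∧ Nat.Prime (2 * N - g - 1)) ∧
        ((Nat.Prime (g + 1) ∧ Nat.Prime (2 * N - g - 1)) ∨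
          (g : ℝ) ≤ 2 / 3 * N + C * (N : ℝ) ^ (1 - δ)) := by
  obtain ⟨δ, C₀, hδ, hδ4, hC₀, hmain⟩ := tail 2 2 (by norm_num)
  refine ⟨δ, C₀ + 7, hδ, by positivity, ?_⟩
  intro N hN a ha1 ha f hf
  obtain ⟨per0, R0, hgood0⟩ := good N hN a ha1 ha f hf
  have hseg := hgood0.seg
  have hf1 : 2 ≤ f := hf.1.1
  have haf : a f = 0 := hf.1.2
  have hmin' : ∀ k, 1 ≤ k → k < f → a k ≠ 0 := by
    intro k hk1 hk2 hk3
    rcases Nat.lt_or_ge k 2 with h | h
    · have : k = 1 := by omega
      subst this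
      rw [ha1] at hk3
      omega
    · have := hf.2 ⟨h, hk3⟩
      omega
  have hnn : ∀ k, 1 ≤ k → k ≤ f → 0 ≤ a k := by
    intro k hk
    induction k, hk using Nat.le_induction with
    | base => intro _; rw [ha1]; omega
    | succ k hk ih =>
      intro hkf
      have h1 := ih (by omega)
      have hpos : 0 < a k := lt_of_le_of_ne h1 (Ne.symm (hmin' k hk (by omega)))
      rw [ha (k + 1) (by omega), Nat.add_sub_cancel]
      have := Int.le_of_dvd hpos (Int.gcd_dvd_left (a := a k)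
        (b := (N : ℤ) - (-1) ^ (k + 1) * ((N : ℤ) - ((k + 1 : ℕ) : ℤ))))
      linarith
  have hcast : ∀ k, 1 ≤ k → k ≤ f → (((a k).natAbs : ℕ) : ℝ) = (a k : ℝ) := by
    intro k hk hk2
    rw [Nat.cast_natAbs, abs_of_nonneg (hnn k hk hk2)]
  have hxf : (a f).natAbs = 0 := by rw [haf]; rfl
  have hdec := decr hseg f (by omega) le_rfl
  have hx1 : (((a 1).natAbs : ℕ) : ℤ) = N - 2 := by
    rw [ha1]; exact Int.natAbs_of_nonneg (by omega)
  simp only [hxf] at hdec
  have hfN : f + 1 ≤ N := by omega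
  have hNr : (3 : ℝ) ≤ N := by exact_mod_cast hN
  have hfr : (f : ℝ) + 1 ≤ N := by exact_mod_cast hfN
  have hcs : (((2 * N - f - 1 : ℕ)) : ℝ) = 2 * (N : ℝ) - f - 1 := by
    rw [Nat.cast_sub (by omega), Nat.cast_sub (by omega)]
    push_cast
    ring
  -- the main inequality at time `s`
  have hA : ∀ s : ℕ, 1 ≤ s → s ≤ f → ∀ p : ℕ, p.Prime → (p ∣ f + 1 ∨ p ∣ 2 * N - f - 1) →
      3 * ((f : ℝ) - s) ≤ 2 * (a s : ℝ) + 2 * p + C₀ * (a s : ℝ) ^ (1 - δ) := by
    intro s hs1 hs2 p hp hdvd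
    obtain ⟨per, R, hgood⟩ := good_at N s f (fun k => (a k).natAbs) (seg_sub hseg hs1 hs2)
    obtain ⟨l, hsl, hle, htr, hrun, hl⟩ := hmain _ _ _ _ _ _ hgood hxf
    have hdet := detect N a f l (by omega) hle hfN htr hrun p hp hdvd
    simp only [hcast s hs1 hs2] at hl
    have h2 : (f : ℝ) - l ≤ 2 * p := by
      have h3 : f ≤ l + 2 * p := by omega
      have h4 : (f : ℝ) ≤ ((l + 2 * p : ℕ) : ℝ) := by exact_mod_cast h3
      push_cast at h4
      linarith
    push_cast at hl
    linarith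
  have hrpow0 : ∀ s : ℕ, 1 ≤ s → s ≤ f → 0 ≤ (a s : ℝ) ^ (1 - δ) := by
    intro s hs hs2
    apply Real.rpow_nonneg
    exact_mod_cast hnn s hs hs2
  -- the least prime factors
  have hB : ∀ s : ℕ, 1 ≤ s → s ≤ f → (Nat.Prime (f + 1) ∧ Nat.Prime (2 * N - f - 1)) ∨
      3 * ((f : ℝ) - s) ≤ 2 * (a s : ℝ) + 2 * √(2 * (N : ℝ) - f - 1) +
        C₀ * (a s : ℝ) ^ (1 - δ) := by
    intro s hs1 hs2
    have key : ∀ p : ℕ, p.Prime → (p ∣ f + 1 ∨ p ∣ 2 * N - f - 1) →
        p ≤ Nat.sqrt (2 * N - f - 1) →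
        3 * ((f : ℝ) - s) ≤ 2 * (a s : ℝ) + 2 * √(2 * (N : ℝ) - f - 1) +
          C₀ * (a s : ℝ) ^ (1 - δ) := by
      intro p hp h1 h2
      have h3 := hA s hs1 hs2 p hp h1
      have h4 : (p : ℝ) ≤ ((Nat.sqrt (2 * N - f - 1) : ℕ) : ℝ) := by exact_mod_cast h2
      have h5 : ((Nat.sqrt (2 * N - f - 1) : ℕ) : ℝ) ≤ √((2 * N - f - 1 : ℕ) : ℝ) :=
        Real.nat_sqrt_le_real_sqrt
      rw [hcs] at h5
      linarith
    by_cases hp1 : Nat.Prime (f + 1)
    · by_cases hp2 : Nat.Prime (2 * N - f - 1)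
      · exact Or.inl ⟨hp1, hp2⟩
      · right
        apply key (Nat.minFac (2 * N - f - 1)) (Nat.minFac_prime (by omega))
          (Or.inr (Nat.minFac_dvd _))
        rw [Nat.le_sqrt']
        exact (Nat.minFac_sq_le_self (by omega) hp2).trans (by omega)
    · right
      apply key (Nat.minFac (f + 1)) (Nat.minFac_prime (by omega)) (Or.inl (Nat.minFac_dvd _))
      rw [Nat.le_sqrt']
      exact (Nat.minFac_sq_le_self (by omega) hp1).trans (by omega)
  refine ⟨?_, ?_, ?_⟩
  · intro s hs1 hs2 p hp hdvd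
    have h1 := hA s hs1 hs2 p hp hdvd
    have h2 := hrpow0 s hs1 hs2
    linarith
  · intro s hs1 hs2 hlt
    rcases hB s hs1 hs2 with h | h
    · exact h
    · exfalso
      have h2 := hrpow0 s hs1 hs2
      linarith
  · rcases hB 1 le_rfl (by omega) with h | h
    · exact Or.inl h
    right
    have hst : (a 1 : ℝ) = N - 2 := by rw [ha1]; push_cast; ring
    rw [hst] at h
    have h1 : ((N : ℝ) - 2) ^ (1 - δ) ≤ (N : ℝ) ^ (1 - δ) :=
      Real.rpow_le_rpow (by linarith) (by linarith) (by linarith)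
    have h6 : √(2 * (N : ℝ) - f - 1) ≤ 3 * (N : ℝ) ^ (1 - δ) := by
      have hf0 : (0 : ℝ) ≤ f := Nat.cast_nonneg _
      calc √(2 * (N : ℝ) - f - 1) ≤ √(9 * N) := Real.sqrt_le_sqrt (by linarith)
        _ = 3 * √N := by
            rw [Real.sqrt_mul (by norm_num), show (9 : ℝ) = 3 ^ 2 by norm_num,
              Real.sqrt_sq (by norm_num)]
        _ ≤ 3 * (N : ℝ) ^ (1 - δ) := by
            apply mul_le_mul_of_nonneg_left _ (by norm_num)
            rw [Real.sqrt_eq_rpow]
            exact Real.rpow_le_rpow_of_exponent_le (by linarith) (by linarith)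
    have h9 : (1 : ℝ) ≤ (N : ℝ) ^ (1 - δ) := Real.one_le_rpow (by linarith) (by linarith)
    push_cast at h
    nlinarith

end Pool.Agent.Results.MP_b5e119_nt.EveryTimePowerSaving
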