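import Mathlib
import Pool.Agent.Y884.GR.Fam

/-!
# The gcd recursion for Goldbach pairs: composite `N` with many nontrivial gcds

For every `r` and `m` there is `C` such that, for every `ε > 0` and all large `X`, at least
`X ^ (1 - ε)` windows `[M, M + C]` with `M ≤ X` contain at least `m` odd composite `N` for which
`g_N + 1` and `2 N - g_N - 1` are distinct primes, `g_N ≥ N - C`, and at least `r` of the gcds of
the recursion are nontrivial. The walk is prescribed by a chain of primes `p_j`, each congruent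
to `1` modulo the previous ones, and the last pair of primes comes from the Maynard-Tao theorem.
-/

set_option autoImplicit false

namespace Pool.Agent.Results.MP_b5e119_nt.ManyStepFamily

open Classical in
theorem result (r m : ℕ) :
    ∃ C : ℕ, ∀ ε : ℝ, 0 < ε → ∃ X₀ : ℝ, ∀ X : ℝ, X₀ ≤ X →
      X ^ (1 - ε) ≤ (((Finset.Icc 1 ⌊X⌋₊).filter (fun M : ℕ =>
        ∃ A : Finset ℕ, m ≤ A.card ∧ ∀ N ∈ A, M ≤ N ∧ N ≤ M + C ∧ ¬ N.Prime ∧ Odd N ∧
          ∀ a : ℕ → ℤ, a 1 = (N : ℤ) - 2 →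
            (∀ n : ℕ, 2 ≤ n → a n = a (n - 1) -
              ((Int.gcd (a (n - 1)) ((N : ℤ) - (-1 : ℤ) ^ n * ((N : ℤ) - (n : ℤ))) : ℕ) : ℤ)) →
            ∃ g : ℕ, IsLeast {n : ℕ | 2 ≤ n ∧ a n = 0} g ∧ Nat.Prime (g + 1) ∧
              Nat.Prime (2 * N - g - 1) ∧ g + 1 < N ∧ N ≤ g + C ∧
              r ≤ ((Finset.Icc 2 g).filter (fun n => Int.gcd (a (n - 1))
                ((N : ℤ) - (-1 : ℤ) ^ n * ((N : ℤ) - (n : ℤ))) ≠ 1)).card)).card : ℝ) := by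
  obtain ⟨C, hC⟩ := Pool.Agent.Y884.GR.family r m
  refine ⟨C, fun ε hε => ?_⟩
  obtain ⟨X₀, hX₀⟩ := hC ε hε
  refine ⟨X₀, fun X hX => (hX₀ X hX).trans ?_⟩
  rw [Nat.cast_le]
  apply Finset.card_le_card
  intro M hM
  rw [Finset.mem_filter] at hM ⊢
  refine ⟨hM.1, ?_⟩
  obtain ⟨A, hA1, hA2⟩ := hM.2
  refine ⟨A, hA1, fun N hN => ?_⟩
  obtain ⟨h1, h2, h3, h4, h5⟩ := hA2 N hN
  refine ⟨h1, h2, h3, h4, ?_⟩
  intro a ha1 ha2
  obtain ⟨g, g1, g2, g3, g4, g5, g6⟩ := h5 a ha1 ha2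
  refine ⟨g, g1, g2, g3, g4, g5, g6.trans ?_⟩
  apply Finset.card_le_card
  intro n hn
  rw [Finset.mem_filter] at hn ⊢
  exact hn

end Pool.Agent.Results.MP_b5e119_nt.ManyStepFamily
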